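import Mathlib

set_option autoImplicit false

namespace Pool.Agent.H.MP_629379_al

open Matrix

/-- `T` is the image of a split torus under a monomial map into a conjugate of the diagonal
torus -/
def IsTorus {K : Type} [Field K] {n r : ℕ} (T : Subgroup (Fin r → GL (Fin n) K)) : Prop :=
  ∃ (d : ℕ) (g : Fin r → GL (Fin n) K) (w : Fin r → Fin n → Fin d → ℤ), ∀ x, x ∈ T ↔
    ∃ t : Fin d → Kˣ, ∀ i, ((g i)⁻¹ * x i * g i).val =
      diagonal fun j => ((∏ k, t k ^ w i j k : Kˣ) : K)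

/-- maximal torus contained in `X` -/
def IsMaxTorus {K : Type} [Field K] {n r : ℕ} (X : Set (Fin r → GL (Fin n) K))
    (T : Subgroup (Fin r → GL (Fin n) K)) : Prop :=
  IsTorus T ∧ (T : Set _) ⊆ X ∧ ∀ S, IsTorus S → (S : Set _) ⊆ X → T ≤ S → S = T

/-- the variety for `n = 2`, `r = 4` and all `M i = 1` -/
def XX (K : Type) [Field K] : Set (Fin 4 → GL (Fin 2) K) := {h | h 0 * h 1 * h 2 * h 3 = 1}

section Gen

variable {K : Type} [Field K] {n r d : ℕ}

def tor (g : Fin r → GL (Fin n) K) (w : Fin r → Fin n → Fin d → ℤ) :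
    Subgroup (Fin r → GL (Fin n) K) where
  carrier := {x | ∃ t : Fin d → Kˣ, ∀ i, ((g i)⁻¹ * x i * g i).val =
      diagonal fun j => ((∏ k, t k ^ w i j k : Kˣ) : K)}
  one_mem' := ⟨1, fun i => by simp⟩
  mul_mem' := by
    rintro x y ⟨s, hs⟩ ⟨t, ht⟩
    refine ⟨s * t, fun i => ?_⟩
    have : (g i)⁻¹ * (x * y) i * g i = ((g i)⁻¹ * x i * g i) * ((g i)⁻¹ * y i * g i) := by
      simp only [Pi.mul_apply]
      group
    rw [this, Units.val_mul, hs, ht, diagonal_mul_diagonal]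
    simp only [Pi.mul_apply, mul_zpow, Finset.prod_mul_distrib, Units.val_mul]
  inv_mem' := by
    rintro x ⟨s, hs⟩
    refine ⟨s⁻¹, fun i => ?_⟩
    have : (g i)⁻¹ * (x⁻¹) i * g i = ((g i)⁻¹ * x i * g i)⁻¹ := by
      simp only [Pi.inv_apply]
      group
    rw [this]
    apply Units.inv_eq_of_mul_eq_one_right
    rw [hs, diagonal_mul_diagonal]
    simp only [← Units.val_mul, ← Finset.prod_mul_distrib, Pi.inv_apply, ← mul_zpow,
      mul_inv_cancel, _root_.one_zpow, Finset.prod_const_one, Units.val_one, diagonal_one]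

theorem IsTorus.comm {T : Subgroup (Fin r → GL (Fin n) K)} (h : IsTorus T)
    {x y : Fin r → GL (Fin n) K} (hx : x ∈ T) (hy : y ∈ T) (i : Fin r) :
    x i * y i = y i * x i := by
  obtain ⟨d, g, w, h⟩ := h
  obtain ⟨s, hs⟩ := (h x).1 hx
  obtain ⟨t, ht⟩ := (h y).1 hy
  have : ((g i)⁻¹ * x i * g i) * ((g i)⁻¹ * y i * g i) =
      ((g i)⁻¹ * y i * g i) * ((g i)⁻¹ * x i * g i) := by
    apply Units.ext
    rw [Units.val_mul, hs, ht, Units.val_mul, hs, ht, diagonal_mul_diagonal,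
      diagonal_mul_diagonal]
    simp only [mul_comm]
  calc x i * y i = g i * (((g i)⁻¹ * x i * g i) * ((g i)⁻¹ * y i * g i)) * (g i)⁻¹ := by group
    _ = y i * x i := by rw [this]; group

end Gen

section Shift

variable {H : Type} [Group H]

def sh (x : Fin 4 → H) : Fin 4 → H := ![x 1, x 2, x 3, x 0]

theorem central_of (w : Fin 4 → H) (hw : ∀ h : Fin 4 → H, h 0 * h 1 * h 2 * h 3 = 1 →
    (h * w) 0 * (h * w) 1 * (h * w) 2 * (h * w) 3 = 1) :
    w ∈ Subgroup.center (Fin 4 → H) := by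
  have a := hw 1 (by simp)
  simp only [one_mul] at a
  have h0 : ∀ g : H, g * w 0 = w 0 * g := by
    intro g
    have b := hw ![g, g⁻¹, 1, 1] (by simp)
    simp only [Pi.mul_apply, Matrix.cons_val, one_mul] at b
    calc g * w 0 = (g * w 0 * (g⁻¹ * w 1) * w 2 * w 3) * (w 0 * w 1 * w 2 * w 3)⁻¹ * w 0 * g := by
          group
      _ = w 0 * g := by rw [a, b]; group
  have h1 : ∀ g : H, g * w 1 = w 1 * g := by
    intro g
    have b := hw ![1, g, g⁻¹, 1] (by simp)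
    simp only [Pi.mul_apply, Matrix.cons_val, one_mul] at b
    calc g * w 1 = (w 0)⁻¹ * ((w 0 * (g * w 1) * (g⁻¹ * w 2) * w 3) *
          (w 0 * w 1 * w 2 * w 3)⁻¹) * w 0 * w 1 * g := by group
      _ = w 1 * g := by rw [a, b]; group
  have h2 : ∀ g : H, g * w 2 = w 2 * g := by
    intro g
    have b := hw ![1, 1, g, g⁻¹] (by simp)
    simp only [Pi.mul_apply, Matrix.cons_val, one_mul] at b
    calc g * w 2 = (w 0 * w 1)⁻¹ * ((w 0 * w 1 * (g * w 2) * (g⁻¹ * w 3)) *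
          (w 0 * w 1 * w 2 * w 3)⁻¹) * w 0 * w 1 * w 2 * g := by group
      _ = w 2 * g := by rw [a, b]; group
  have h3 : ∀ g : H, g * w 3 = w 3 * g := by
    intro g
    have e : w 3 = (w 0 * w 1 * w 2)⁻¹ := eq_inv_of_mul_eq_one_right a
    have c : Commute g (w 0 * w 1 * w 2) :=
      Commute.mul_right (Commute.mul_right (h0 g) (h1 g)) (h2 g)
    rw [e]
    exact c.inv_right
  rw [Subgroup.mem_center_iff]
  intro g
  funext i
  fin_cases i
  · exact h0 _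
  · exact h1 _
  · exact h2 _
  · exact h3 _

theorem sh_mem (y h : Fin 4 → H) (hh : h 0 * h 1 * h 2 * h 3 = 1) :
    (y * h * (sh y)⁻¹) 0 * (y * h * (sh y)⁻¹) 1 * (y * h * (sh y)⁻¹) 2 *
      (y * h * (sh y)⁻¹) 3 = 1 := by
  simp only [Pi.mul_apply, Pi.inv_apply, sh, Matrix.cons_val]
  calc _ = y 0 * (h 0 * h 1 * h 2 * h 3) * (y 0)⁻¹ := by group
    _ = 1 := by rw [hh]; group

theorem sh_comm (σ : (Fin 4 → H) ≃* (Fin 4 → H))
    (hσ : σ '' {h | h 0 * h 1 * h 2 * h 3 = 1} = {h | h 0 * h 1 * h 2 * h 3 = 1})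
    (y : Fin 4 → H) : (σ (sh y))⁻¹ * sh (σ y) ∈ Subgroup.center (Fin 4 → H) := by
  apply central_of
  intro h hh
  obtain ⟨u, hu, rfl⟩ : h ∈ σ '' {h | h 0 * h 1 * h 2 * h 3 = 1} := by rw [hσ]; exact hh
  have a : σ (y * u * (sh y)⁻¹) ∈ {h : Fin 4 → H | h 0 * h 1 * h 2 * h 3 = 1} := by
    rw [← hσ]
    exact ⟨_, sh_mem y u hu, rfl⟩
  have b := sh_mem (σ y)⁻¹ _ a
  have c : (sh (σ y)⁻¹)⁻¹ = sh (σ y) := by
    funext i
    fin_cases i <;> simp [sh]
  have e : (σ y)⁻¹ * σ (y * u * (sh y)⁻¹) * (sh (σ y)⁻¹)⁻¹ =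
      σ u * ((σ (sh y))⁻¹ * sh (σ y)) := by
    rw [c, map_mul, map_mul, map_inv]
    group
  rwa [e] at b

/-- the separating invariant -/
def PP (k : ℕ) (T : Subgroup (Fin 4 → H)) : Prop :=
  ∀ x ∈ T, ∀ y ∈ T, x ^ 2 ∈ Subgroup.center (Fin 4 → H) → y ^ 2 ∈ Subgroup.center (Fin 4 → H) →
    (x * sh y) ^ k ∈ Subgroup.center (Fin 4 → H)

theorem map_center {G : Type} [Group G] (σ : G ≃* G) (x : G) :
    σ x ∈ Subgroup.center G ↔ x ∈ Subgroup.center G := by
  simp only [Subgroup.mem_center_iff]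
  constructor
  · intro h g
    apply σ.injective
    rw [map_mul, map_mul, h]
  · intro h g
    obtain ⟨g, rfl⟩ := σ.surjective g
    rw [← map_mul, ← map_mul, h]

theorem PP_map (σ : (Fin 4 → H) ≃* (Fin 4 → H))
    (hσ : σ '' {h | h 0 * h 1 * h 2 * h 3 = 1} = {h | h 0 * h 1 * h 2 * h 3 = 1})
    (k : ℕ) (T : Subgroup (Fin 4 → H)) : PP k T ↔ PP k (T.map σ.toMonoidHom) := by
  have key : ∀ x y, (σ x * sh (σ y)) ^ k ∈ Subgroup.center (Fin 4 → H) ↔
      (x * sh y) ^ k ∈ Subgroup.center (Fin 4 → H) := by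
    intro x y
    have a := sh_comm σ hσ y
    have e : σ x * sh (σ y) = σ (x * sh y) * ((σ (sh y))⁻¹ * sh (σ y)) := by
      rw [map_mul]
      group
    have c : Commute (σ (x * sh y)) ((σ (sh y))⁻¹ * sh (σ y)) :=
      Subgroup.mem_center_iff.1 a _
    rw [e, c.mul_pow, Subgroup.mul_mem_cancel_right _ (Subgroup.pow_mem _ a k), ← map_pow,
      map_center]
  constructor
  · rintro h _ ⟨x, hx, rfl⟩ _ ⟨y, hy, rfl⟩ h1 h2
    change σ x ^ 2 ∈ _ at h1
    change σ y ^ 2 ∈ _ at h2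
    rw [← map_pow, map_center] at h1 h2
    exact (key x y).2 (h x hx y hy h1 h2)
  · intro h x hx y hy h1 h2
    refine (key x y).1 (h (σ x) ⟨x, hx, rfl⟩ (σ y) ⟨y, hy, rfl⟩ ?_ ?_)
    · rwa [← map_pow, map_center]
    · rwa [← map_pow, map_center]

end Shift

end Pool.Agent.H.MP_629379_al
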