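import Pool.Agent.H.MP_629379_al.A

set_option autoImplicit false

namespace Pool.Agent.H.MP_629379_al

open Matrix

variable {K : Type} [Field K] [CharZero K]

def E (θ a b : K) : Matrix (Fin 2) (Fin 2) K :=
  !![(a + b) / 2, (a - b) / (2 * θ); (a - b) * θ / 2, (a + b) / 2]

theorem E_mul (θ : K) (h : θ ≠ 0) (a b c d : K) : E θ a b * E θ c d = E θ (a * c) (b * d) := by
  ext i j
  fin_cases i <;> fin_cases j <;> simp [E, Matrix.mul_apply, Fin.sum_univ_two] <;> field_simp <;>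
    ring

theorem E_self (θ a : K) : E θ a a = scalar (Fin 2) a := by
  ext i j
  fin_cases i <;> fin_cases j <;> simp [E]

theorem E_det (θ : K) (h : θ ≠ 0) (a b : K) : (E θ a b).det = a * b := by
  simp only [E, det_fin_two_of]
  field_simp
  ring

noncomputable def gg (θ : Kˣ) : GL (Fin 2) K :=
  GeneralLinearGroup.mkOfDetNeZero !![1, 1; (θ : K), -θ] (by
    have := θ.ne_zero
    simp only [det_fin_two_of]
    intro h
    apply this
    linear_combination (-1 / 2 : K) * h)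

theorem conj_iff (θ : Kˣ) (x : GL (Fin 2) K) (v : Fin 2 → K) :
    ((gg θ)⁻¹ * x * gg θ).val = diagonal v ↔ x.val = E (θ : K) (v 0) (v 1) := by
  have hθ := θ.ne_zero
  have a : E (θ : K) (v 0) (v 1) * (gg θ).val = (gg θ).val * diagonal v := by
    ext i j
    fin_cases i <;> fin_cases j <;>
      simp [E, gg, Matrix.mul_apply, Fin.sum_univ_two, diagonal] <;> field_simp <;> ring
  rw [Units.val_mul, Units.val_mul, mul_assoc, Units.inv_mul_eq_iff_eq_mul, ← a,
    Units.mul_left_inj]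

def ww : Fin 4 → Fin 2 → Fin 5 → ℤ :=
  ![![![1, 0, 0, 0, 0], ![0, 1, 0, 0, 0]], ![![-1, 0, 1, 0, 0], ![0, -1, 1, 0, 0]],
    ![![0, 0, 0, 1, 0], ![0, 0, 0, 0, 1]], ![![0, 0, -1, -1, 0], ![0, 0, -1, 0, -1]]]

noncomputable def TT (θ : Kˣ) : Subgroup (Fin 4 → GL (Fin 2) K) :=
  tor ![gg 1, gg 1, gg θ, gg θ] ww

theorem mem_TT (θ : Kˣ) (x : Fin 4 → GL (Fin 2) K) : x ∈ TT θ ↔ ∃ t : Fin 5 → Kˣ,
    (x 0).val = E (1 : K) (t 0) (t 1) ∧
    (x 1).val = E (1 : K) ((t 0 : K)⁻¹ * t 2) ((t 1 : K)⁻¹ * t 2) ∧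
    (x 2).val = E (θ : K) (t 3) (t 4) ∧
    (x 3).val = E (θ : K) ((t 2 : K)⁻¹ * (t 3 : K)⁻¹) ((t 2 : K)⁻¹ * (t 4 : K)⁻¹) := by
  change (∃ t : Fin 5 → Kˣ, ∀ i : Fin 4, _) ↔ _
  refine exists_congr fun t => ?_
  rw [Fin.forall_fin_succ, Fin.forall_fin_succ, Fin.forall_fin_two]
  simp only [Fin.succ_zero_eq_one, Fin.succ_one_eq_two, Fin.reduceSucc, Matrix.cons_val, conj_iff]
  simp [ww, Fin.prod_univ_five]

theorem TT_sub (θ : Kˣ) : (TT θ : Set (Fin 4 → GL (Fin 2) K)) ⊆ XX K := by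
  intro x hx
  obtain ⟨t, h0, h1, h2, h3⟩ := (mem_TT θ x).1 hx
  apply Units.ext
  rw [mul_assoc, Units.val_mul, Units.val_mul, Units.val_mul, h0, h1, h2, h3,
    E_mul _ one_ne_zero, E_mul _ θ.ne_zero]
  have a (i : Fin 5) : (t i : K) * ((t i : K)⁻¹ * t 2) = t 2 := by field_simp
  have b (i : Fin 5) : (t i : K) * ((t 2 : K)⁻¹ * (t i : K)⁻¹) = (t 2 : K)⁻¹ := by field_simp
  rw [a, a, b, b, E_self, E_self, ← map_mul, mul_inv_cancel₀ (t 2).ne_zero, map_one,
    Units.val_one]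

noncomputable def ss (θ : Kˣ) : GL (Fin 2) K :=
  GeneralLinearGroup.mkOfDetNeZero (E (θ : K) 1 (-1)) (by
    rw [E_det _ θ.ne_zero]
    norm_num)

theorem ss_val (θ : Kˣ) : (ss θ).val = E (θ : K) 1 (-1) := rfl

theorem ss_sq (θ : Kˣ) : ss θ * ss θ = 1 := by
  apply Units.ext
  rw [Units.val_mul, ss_val, E_mul _ θ.ne_zero]
  simpa using E_self (θ : K) 1

theorem mem1 (θ : Kˣ) : ![ss 1, ss 1, 1, 1] ∈ TT θ := by
  refine (mem_TT _ _).2 ⟨![1, -1, 1, 1, 1], ?_⟩
  simp [ss_val, E_self]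

theorem mem2 (θ : Kˣ) : ![1, 1, ss θ, ss θ] ∈ TT θ := by
  refine (mem_TT _ _).2 ⟨![1, 1, 1, 1, -1], ?_⟩
  simp [ss_val, E_self]

theorem of_comm (θ : Kˣ) (x : GL (Fin 2) K) (h : x * ss θ = ss θ * x) :
    ∃ a b : Kˣ, x.val = E (θ : K) a b := by
  have hθ := θ.ne_zero
  have h' := congrArg Units.val h
  rw [Units.val_mul, Units.val_mul, ss_val] at h'
  have h1 := congrFun (congrFun h' 0) 0
  have h2 := congrFun (congrFun h' 0) 1
  simp [E, Matrix.mul_apply, Fin.sum_univ_two] at h1 h2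
  field_simp at h1 h2
  have e : x.val = E (θ : K) (x.val 0 0 + θ * x.val 0 1) (x.val 0 0 - θ * x.val 0 1) := by
    ext i j
    fin_cases i <;> fin_cases j <;> simp [E]
    · field_simp
      ring
    · field_simp
      linear_combination (-2) * h1
    · exact h2.symm
  have d := x.det_ne_zero
  rw [e, E_det _ hθ] at d
  exact ⟨Units.mk0 _ (left_ne_zero_of_mul d), Units.mk0 _ (right_ne_zero_of_mul d), e⟩

theorem TT_max (θ : Kˣ) (hθ : (θ : K) ^ 2 ≠ 1) : IsMaxTorus (XX K) (TT θ) := by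
  refine ⟨⟨5, _, ww, fun x => Iff.rfl⟩, TT_sub θ, fun S hS h1 h2 => le_antisymm ?_ h2⟩
  intro x hx
  obtain ⟨a0, b0, e0⟩ := of_comm 1 (x 0) (hS.comm hx (h2 (mem1 θ)) 0)
  obtain ⟨a1, b1, e1⟩ := of_comm 1 (x 1) (hS.comm hx (h2 (mem1 θ)) 1)
  obtain ⟨a2, b2, e2⟩ := of_comm θ (x 2) (hS.comm hx (h2 (mem2 θ)) 2)
  obtain ⟨a3, b3, e3⟩ := of_comm θ (x 3) (hS.comm hx (h2 (mem2 θ)) 3)
  have h : x 0 * x 1 * x 2 * x 3 = 1 := h1 hx
  have h' := congrArg Units.val h
  rw [mul_assoc, Units.val_mul, Units.val_mul, Units.val_mul, e0, e1, e2, e3,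
    E_mul _ (Units.ne_zero 1), E_mul _ θ.ne_zero, Units.val_one, Units.val_one] at h'
  have key : ∀ p q r s : K, E 1 p q * E (θ : K) r s = 1 → p = q ∧ p * r = 1 ∧ p * s = 1 := by
    intro p q r s h
    have t := θ.ne_zero
    have g0 := congrFun (congrFun h 0) 0
    have g1 := congrFun (congrFun h 0) 1
    have g2 := congrFun (congrFun h 1) 0
    have g3 := congrFun (congrFun h 1) 1
    simp [E, Matrix.mul_apply, Fin.sum_univ_two] at g0 g1 g2 g3
    field_simp at g0 g1 g2 g3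
    have c : (θ : K) ^ 2 - 1 ≠ 0 := sub_ne_zero.2 hθ
    have a1 : (p - q) * (r - s) = 0 := mul_left_cancel₀ c (by linear_combination θ * g0 - g3)
    have a2 : (p + q) * (r - s) = 0 := mul_left_cancel₀ c (by linear_combination θ * g2 - g1)
    have a3 : (p + q) * (r + s) = 4 := by linear_combination g0 - θ * a1
    have a4 : (r + s) * (p - q) = 0 := by linear_combination g2 - θ * a2
    have a5 : r = s := by linear_combination (r + s) / 4 * a2 - (r - s) / 4 * a3
    have a6 : p = q := by linear_combination (p + q) / 4 * a4 - (p - q) / 4 * a3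
    subst a5 a6
    exact ⟨rfl, by linear_combination a3 / 4, by linear_combination a3 / 4⟩
  obtain ⟨k1, k2, k3⟩ := key _ _ _ _ h'
  refine (mem_TT _ _).2 ⟨![a0, b0, a0 * a1, a2, b2], ?_⟩
  simp only [Matrix.cons_val, e0, e1, e2, e3, Units.val_one, Units.val_mul, true_and]
  constructor
  · congr 1
    · field_simp
    · rw [k1]
      field_simp
  · congr 1
    · field_simp
      linear_combination k2
    · field_simp
      linear_combination k3

theorem dih {Q : Type} [Group Q] (S T : Q) (hS : S * S = 1) (hT : T * T = 1) (k : ℕ)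
    (h : (S * T) ^ (2 * k) = 1) (A B : Q) (hA : A = 1 ∨ A = S ∨ A = T)
    (hB : B = 1 ∨ B = S ∨ B = T) : (A * B) ^ (2 * k) = 1 := by
  have a : S ^ (2 * k) = 1 := by rw [pow_mul, sq, hS, one_pow]
  have b : T ^ (2 * k) = 1 := by rw [pow_mul, sq, hT, one_pow]
  have c : (T * S) ^ (2 * k) = 1 := by
    have : T * S = (S * T)⁻¹ := by
      rw [_root_.mul_inv_rev, ← eq_inv_of_mul_eq_one_left hS, ← eq_inv_of_mul_eq_one_left hT]
    rw [this, inv_pow, h, inv_one]
  rcases hA with rfl | rfl | rfl <;> rcases hB with rfl | rfl | rfl <;> simp [*]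

theorem cen_iff (x : Fin 4 → GL (Fin 2) K) : x ∈ Subgroup.center (Fin 4 → GL (Fin 2) K) ↔
    ∀ i, x i ∈ Subgroup.center (GL (Fin 2) K) := by
  simp only [Subgroup.mem_center_iff]
  constructor
  · intro h i g
    exact congrFun (h fun _ => g) i
  · intro h g
    funext i
    exact h i _

theorem sq_cen (θ : Kˣ) (u : GL (Fin 2) K) (a b : K) (hu : u.val = E (θ : K) a b)
    (h : u ^ 2 ∈ Subgroup.center (GL (Fin 2) K)) :
    (QuotientGroup.mk' (Subgroup.center (GL (Fin 2) K)) u) = 1 ∨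
      QuotientGroup.mk' (Subgroup.center (GL (Fin 2) K)) u = QuotientGroup.mk' _ (ss θ) := by
  have t := θ.ne_zero
  obtain ⟨c, hc⟩ := GeneralLinearGroup.mem_center_iff_val_mem_range_scalar.1 h
  rw [sq, Units.val_mul, hu, E_mul _ t] at hc
  have g := congrFun (congrFun hc 1) 0
  simp [E] at g
  have g' : (a - b) * (a + b) = 0 := mul_left_cancel₀ t (by linear_combination (-2) * g)
  rcases mul_eq_zero.1 g' with e | e
  · left
    rw [QuotientGroup.mk'_apply, QuotientGroup.eq_one_iff,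
      GeneralLinearGroup.mem_center_iff_val_mem_range_scalar]
    exact ⟨a, by rw [hu, ← sub_eq_zero.1 e, E_self]⟩
  · right
    rw [← mul_inv_eq_one, ← map_inv, ← map_mul, ← eq_inv_of_mul_eq_one_left (ss_sq θ),
      QuotientGroup.mk'_apply, QuotientGroup.eq_one_iff,
      GeneralLinearGroup.mem_center_iff_val_mem_range_scalar]
    refine ⟨a, ?_⟩
    rw [Units.val_mul, hu, ss_val, E_mul _ t, mul_one, ← E_self (θ : K)]
    congr 1
    linear_combination e

theorem ss_mul_pow (θ : Kˣ) (k : ℕ) : (ss 1 * ss θ) ^ k ∈ Subgroup.center (GL (Fin 2) K) ↔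
    (θ : K) ^ (2 * k) = 1 := by
  have t := θ.ne_zero
  have a : (ss 1 * ss θ).val = diagonal ![(θ : K), (θ : K)⁻¹] := by
    rw [Units.val_mul, ss_val, ss_val]
    ext i j
    fin_cases i <;> fin_cases j <;> simp [E, Matrix.mul_apply, Fin.sum_univ_two] <;>
      field_simp <;> ring
  rw [GeneralLinearGroup.mem_center_iff_val_mem_range_scalar, Units.val_pow_eq_pow_val, a,
    diagonal_pow]
  have e : (θ : K) ^ k * (θ : K)⁻¹ ^ k = 1 := by rw [← mul_pow, mul_inv_cancel₀ t, one_pow]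
  constructor
  · rintro ⟨c, hc⟩
    have g0 : c = (θ : K) ^ k := by simpa using congrFun (congrFun hc 0) 0
    have g1 : c = (θ : K)⁻¹ ^ k := by simpa using congrFun (congrFun hc 1) 1
    rw [← g1, g0] at e
    rw [two_mul, pow_add, e]
  · intro h
    refine ⟨(θ : K) ^ k, ?_⟩
    have g : (θ : K)⁻¹ ^ k = (θ : K) ^ k := by
      rw [two_mul, pow_add] at h
      exact mul_left_cancel₀ (pow_ne_zero k t) (e.trans h.symm)
    rw [scalar_apply]
    congr 1
    funext i
    fin_cases i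
    · simp
    · simpa using g.symm

theorem PP_iff (θ : Kˣ) (k : ℕ) : PP (2 * k) (TT θ) ↔ (θ : K) ^ (2 * (2 * k)) = 1 := by
  rw [← ss_mul_pow]
  constructor
  · intro h
    have c (φ : Kˣ) : ss φ ^ 2 = 1 := by rw [sq, ss_sq]
    have := h _ (mem1 θ) _ (mem2 θ) ((cen_iff _).2 fun i => by fin_cases i <;> simp [c])
      ((cen_iff _).2 fun i => by fin_cases i <;> simp [c])
    exact (cen_iff _).1 this 1
  · intro h x hx y hy h1 h2
    let π := QuotientGroup.mk' (Subgroup.center (GL (Fin 2) K))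
    have key : ∀ x ∈ TT θ, x ^ 2 ∈ Subgroup.center (Fin 4 → GL (Fin 2) K) → ∀ i,
        π (x i) = 1 ∨ π (x i) = π (ss 1) ∨ π (x i) = π (ss θ) := by
      intro x hx h1 i
      obtain ⟨t, e0, e1, e2, e3⟩ := (mem_TT θ x).1 hx
      have c := (cen_iff _).1 h1
      fin_cases i
      · exact (sq_cen 1 _ _ _ e0 (c 0)).imp_right Or.inl
      · exact (sq_cen 1 _ _ _ e1 (c 1)).imp_right Or.inl
      · exact (sq_cen θ _ _ _ e2 (c 2)).imp_right Or.inr
      · exact (sq_cen θ _ _ _ e3 (c 3)).imp_right Or.inr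
    have d := dih (π (ss 1)) (π (ss θ)) (by rw [← map_mul, ss_sq, map_one])
      (by rw [← map_mul, ss_sq, map_one]) k (by
        rw [← map_mul, ← map_pow]
        exact (QuotientGroup.eq_one_iff _).2 h)
    rw [cen_iff]
    intro i
    rw [← QuotientGroup.eq_one_iff]
    change π ((x i * sh y i) ^ (2 * k)) = 1
    rw [map_pow, map_mul]
    refine d _ _ (key x hx h1 i) ?_
    fin_cases i
    · exact key y hy h2 1
    · exact key y hy h2 2
    · exact key y hy h2 3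
    · exact key y hy h2 0

end Pool.Agent.H.MP_629379_al
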